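import Pool.Agent.Y92.ZX.Stm

/-!
# Evaluation of lifts, change of charts
-/

set_option autoImplicit false
set_option linter.unusedSectionVars false

namespace Pool.Agent.Y151.ZX

open Pool.Agent.Y226 Pool.Agent.Y226.ZG Pool.Agent.Y92.ZX

section chv

variable {A B : Type} [CommRing A] [CommRing B] {n : ℕ}

theorem map_chv (k : A →+* B) (a : Option (Fin n)) (y : Fin n → A) :
    (k ∘ chv a y) = chv a (fun i => k (y i)) := by
  funext q
  unfold chv
  simp only [Function.comp_apply]
  split_ifs <;> simp

end chv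

/-- The evaluation of a form in a chart. -/
theorem ev_chart {A B 𝕜 : Type} [CommRing A] [CommRing B] [CommRing 𝕜] {n : ℕ} (π : A →+* 𝕜)
    (φ : 𝕜 →+* B) (y : Fin n → B) (a : Option (Fin n)) (F : MvPolynomial (Fin n × Bool) A) :
    MvPolynomial.eval₂ φ y (MvPolynomial.eval₂ (MvPolynomial.C.comp π) (chv a MvPolynomial.X) F) =
      MvPolynomial.eval₂ (φ.comp π) (chv a y) F := by
  have h := MvPolynomial.eval₂_comp_left (MvPolynomial.eval₂Hom φ y)
    ((MvPolynomial.C (R := 𝕜) (σ := Fin n)).comp π) (chv a MvPolynomial.X) F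
  rw [MvPolynomial.coe_eval₂Hom] at h
  rw [h]
  congr 1
  · ext r
    simp
  · have h2 := map_chv (MvPolynomial.eval₂Hom φ y) a (MvPolynomial.X (R := 𝕜) (σ := Fin n))
    rw [MvPolynomial.coe_eval₂Hom] at h2
    rw [h2]
    congr 1
    funext i
    simp

theorem eva : S_EVA := by
  intro C _ _ p _ 𝕜 _ ρ hρ hp0 hp1 hker n κ F a f hf
  classical
  -- lifts of the elements of the ideal
  have key : ∀ g : MvPolynomial (Fin n) 𝕜, g ∈ chI ρ F a →
      ∃ f' : MvPolynomial (Fin n) (Nr C p), MvPolynomial.map ρ f' = g ∧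
        ∀ y : Fin n → C, (∀ t, MvPolynomial.eval₂ (Nr C p).subtype (chv a y) (F t) = 0) →
          MvPolynomial.eval₂ (Nr C p).subtype y f' = 0 := by
    intro g hg
    unfold chI at hg
    refine Submodule.span_induction ?_ ?_ ?_ ?_ hg
    · rintro _ ⟨t, rfl⟩
      refine ⟨MvPolynomial.eval₂ (MvPolynomial.C.comp (RingHom.id _)) (chv a MvPolynomial.X) (F t),
        ?_, fun y hy => ?_⟩
      · have h := MvPolynomial.eval₂_comp_left (MvPolynomial.map ρ)
          ((MvPolynomial.C (R := Nr C p) (σ := Fin n)).comp (RingHom.id _))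
          (chv a MvPolynomial.X) (F t)
        rw [h]
        congr 1
        · ext r
          simp
        · rw [map_chv]
          congr 1
          funext i
          simp
      · rw [ev_chart, RingHom.comp_id]
        exact hy t
    · exact ⟨0, map_zero _, fun y _ => MvPolynomial.eval₂_zero _ _⟩
    · rintro g₁ g₂ - - ⟨f₁, h₁, e₁⟩ ⟨f₂, h₂, e₂⟩
      exact ⟨f₁ + f₂, by rw [map_add, h₁, h₂], fun y hy => by
        rw [MvPolynomial.eval₂_add, e₁ y hy, e₂ y hy, add_zero]⟩
    · rintro c g - ⟨f₁, h₁, e₁⟩
      obtain ⟨c', hc'⟩ := MvPolynomial.map_surjective ρ hρ c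
      exact ⟨c' * f₁, by rw [map_mul, hc', h₁, smul_eq_mul], fun y hy => by
        rw [MvPolynomial.eval₂_mul, e₁ y hy, mul_zero]⟩
  obtain ⟨f', hf', hf0⟩ := key _ hf
  set h := f - f' with hh
  have hmap : MvPolynomial.map ρ h = 0 := by rw [hh, map_sub, hf', sub_self]
  have hpne : (p : C) ≠ 0 := norm_pos_iff.1 hp0
  have hcoef : ∀ m, ‖((MvPolynomial.coeff m h : Nr C p) : C) / p‖ ≤ 1 := by
    intro m
    have h1 : ρ (MvPolynomial.coeff m h) = 0 := by
      rw [← MvPolynomial.coeff_map, hmap, MvPolynomial.coeff_zero]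
    have h2 := Nr_gap (MvPolynomial.coeff m h).2 ((hker _).1 h1)
    rw [norm_div]
    exact div_le_one_of_le₀ h2 (norm_nonneg _)
  let c : (Fin n →₀ ℕ) → OO C := fun m => ⟨((MvPolynomial.coeff m h : Nr C p) : C) / p, hcoef m⟩
  refine ⟨∑ m ∈ h.support, MvPolynomial.monomial m (c m), fun y hy => ?_⟩
  have e1 : MvPolynomial.eval₂ (Nr C p).subtype y f = MvPolynomial.eval₂ (Nr C p).subtype y h := by
    have : f = h + f' := by rw [hh]; ring
    rw [this, MvPolynomial.eval₂_add, hf0 y hy, add_zero]
  rw [e1, MvPolynomial.eval₂_sum, Finset.mul_sum, MvPolynomial.eval₂_eq']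
  refine Finset.sum_congr rfl fun m _ => ?_
  rw [MvPolynomial.eval₂_monomial, Finsupp.prod_fintype _ _ (fun i => pow_zero _)]
  have e2 : (OO C).subtype (c m) = ((MvPolynomial.coeff m h : Nr C p) : C) / p := rfl
  rw [e2, Subring.subtype_apply]
  field_simp

/-! ### charts -/

/-- Scaling the variables of a form. -/
theorem scale {A B : Type} [CommRing A] [CommRing B] {n : ℕ} (g : A →+* B)
    (F : MvPolynomial (Fin n × Bool) A) (hF : MHom F) (c : Fin n → B) (y : Fin n × Bool → B)
    (h0 : MvPolynomial.eval₂ g y F = 0) :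
    MvPolynomial.eval₂ g (fun q => c q.1 * y q) F = 0 := by
  obtain ⟨δ, hδ⟩ := hF
  have h1 : MvPolynomial.eval₂ g (fun q => c q.1 * y q) F =
      (∏ i, c i ^ δ i) * MvPolynomial.eval₂ g y F := by
    rw [MvPolynomial.eval₂_eq', MvPolynomial.eval₂_eq', Finset.mul_sum]
    refine Finset.sum_congr rfl fun m hm => ?_
    have h2 : ∏ q : Fin n × Bool, c q.1 ^ m q = ∏ i, c i ^ δ i := by
      rw [Fintype.prod_prod_type]
      refine Finset.prod_congr rfl fun i _ => ?_
      rw [Fintype.prod_bool, ← pow_add, ← hδ m hm i, add_comm]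
    simp only [mul_pow]
    rw [Finset.prod_mul_distrib, h2]
    ring
  rw [h1, h0, mul_zero]

theorem cht : S_CHT := by
  intro A 𝕜 _ _ n κ d₀ π F hG a
  classical
  constructor
  · intro i hi
    have hP : (chI π F none).IsPrime := hG.prime none
    set P := chI π F none with hPdef
    let Q := MvPolynomial (Fin n) 𝕜 ⧸ P
    let 𝔽 := FractionRing Q
    let φ : MvPolynomial (Fin n) 𝕜 →+* 𝔽 := (algebraMap Q 𝔽).comp (Ideal.Quotient.mk P)
    have hφ : ∀ f, φ f = 0 ↔ f ∈ P := by
      intro f
      rw [← Ideal.Quotient.eq_zero_iff_mem]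
      show algebraMap Q 𝔽 (Ideal.Quotient.mk P f) = 0 ↔ _
      rw [map_eq_zero_iff _ (IsFractionRing.injective Q 𝔽)]
    let g : 𝕜 →+* 𝔽 := φ.comp MvPolynomial.C
    let x : Fin n → 𝔽 := fun i => φ (MvPolynomial.X i)
    have hev : ∀ f, φ f = MvPolynomial.eval₂ g x f := by
      intro f
      have : φ = MvPolynomial.eval₂Hom g x := by
        apply MvPolynomial.ringHom_ext
        · intro r
          simp [g]
        · intro i
          simp [x]
      rw [this]
      rfl
    have hx0 : ∀ i, x i ≠ 0 := by
      intro i hi0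
      apply hG.const i 0
      rw [map_zero, sub_zero]
      exact (hφ _).1 hi0
    set η : Fin n → 𝔽 := Function.update x a (x a)⁻¹ with hη
    have hη0 : ∀ i, η i ≠ 0 := by
      intro i
      rw [hη]
      by_cases hia : i = a
      · subst hia
        rw [Function.update_self]
        exact inv_ne_zero (hx0 _)
      · rw [Function.update_of_ne hia]
        exact hx0 i
    have hgen : ∀ t, MvPolynomial.eval₂ (g.comp π) (chv (some a) η) (F t) = 0 := by
      intro t
      have h1 : MvPolynomial.eval₂ (g.comp π) (chv none x) (F t) = 0 := by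
        rw [← ev_chart, ← hev, hφ]
        exact Ideal.subset_span ⟨t, rfl⟩
      have h2 := scale (g.comp π) (F t) (hG.hom t) (fun i => if i = a then (x a)⁻¹ else 1) _ h1
      have hfun : (fun q => (if q.1 = a then (x a)⁻¹ else 1) * chv none x q) =
          chv (some a) η := by
        funext q
        unfold chv
        by_cases hq : q.1 = a
        · simp only [hq, if_true, hη, Function.update_self, reduceCtorEq, if_false]
          by_cases hb : q.2
          · simp [hb]
          · simp only [hb, if_false, Bool.false_eq_true]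
            exact inv_mul_cancel₀ (hx0 a)
        · have hq' : ¬ (some a = some q.1) := fun h => hq (Option.some_injective _ h).symm
          simp only [hq, if_false, hq', hη, Function.update_of_ne hq, reduceCtorEq, one_mul]
      rw [hfun] at h2
      exact h2
    have hall : ∀ f ∈ chI π F (some a), MvPolynomial.eval₂ g η f = 0 := by
      intro f hf
      have h1 : chI π F (some a) ≤ RingHom.ker (MvPolynomial.eval₂Hom g η) := by
        unfold chI
        rw [Ideal.span_le]
        rintro _ ⟨t, rfl⟩
        rw [SetLike.mem_coe, RingHom.mem_ker, MvPolynomial.coe_eval₂Hom, ev_chart]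
        exact hgen t
      exact h1 hf
    have h3 := hall _ hi
    rw [MvPolynomial.eval₂_X] at h3
    exact hη0 i h3
  · intro 𝔽 _ _ x hxa hx f hf
    have h1 : chI π F none ≤ RingHom.ker
        (MvPolynomial.eval₂Hom (algebraMap 𝕜 𝔽) (Function.update x a (x a)⁻¹)) := by
      unfold chI
      rw [Ideal.span_le]
      rintro _ ⟨t, rfl⟩
      rw [SetLike.mem_coe, RingHom.mem_ker, MvPolynomial.coe_eval₂Hom, ev_chart]
      have h2 : MvPolynomial.eval₂ ((algebraMap 𝕜 𝔽).comp π) (chv (some a) x) (F t) = 0 := by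
        rw [← ev_chart]
        exact hx _ (Ideal.subset_span ⟨t, rfl⟩)
      have h3 := scale ((algebraMap 𝕜 𝔽).comp π) (F t) (hG.hom t)
        (fun i => if i = a then (x a)⁻¹ else 1) _ h2
      have hfun : (fun q => (if q.1 = a then (x a)⁻¹ else 1) * chv (some a) x q) =
          chv none (Function.update x a (x a)⁻¹) := by
        funext q
        unfold chv
        by_cases hq : q.1 = a
        · simp only [hq, if_true, Function.update_self, reduceCtorEq, if_false]
          by_cases hb : q.2
          · simp [hb, hxa]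
          · simp [hb]
        · have hq' : ¬ (some a = some q.1) := fun h => hq (Option.some_injective _ h).symm
          simp only [hq, if_false, hq', Function.update_of_ne hq, reduceCtorEq, one_mul]
      rw [hfun] at h3
      exact h3
    exact h1 hf

end Pool.Agent.Y151.ZX
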