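import Pool.Agent.Y92.ZX.Stm

/-!
# Approximate roots near a bad coordinate
-/

set_option autoImplicit false
set_option linter.unusedSectionVars false

open Polynomial

namespace Pool.Agent.Y151.ZX

open Pool.Agent.Y226 Pool.Agent.Y226.ZG Pool.Agent.Y92.ZX

/-- The product of numbers which are not too small. -/
theorem prod_gt (B : ℕ) (π : ℝ) (hπ1 : π < 1) (T : Multiset ℝ) (hcard : Multiset.card T ≤ B)
    (h0 : ∀ t ∈ T, 0 ≤ t) (h1 : ∀ t ∈ T, t ≤ 1) (hB : ∀ t ∈ T, π < t ^ B) : π < T.prod := by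
  classical
  rcases T.empty_or_exists_mem with rfl | ⟨t₁, ht₁⟩
  · rw [Multiset.prod_zero]
    exact hπ1
  · obtain ⟨t₀, ht₀, hmin⟩ := Finset.exists_min_image T.toFinset id
      ⟨t₁, Multiset.mem_toFinset.2 ht₁⟩
    rw [Multiset.mem_toFinset] at ht₀
    have hmin' : ∀ t ∈ T, t₀ ≤ t := fun t ht => hmin t (Multiset.mem_toFinset.2 ht)
    have hpow : ∀ S : Multiset ℝ, (∀ t ∈ S, t₀ ≤ t) → t₀ ^ Multiset.card S ≤ S.prod := by
      intro S
      induction S using Multiset.induction_on with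
      | empty =>
        intro _
        simp
      | cons t S ih =>
        intro hS
        rw [Multiset.card_cons, Multiset.prod_cons, pow_succ, mul_comm]
        exact mul_le_mul (hS t (Multiset.mem_cons_self _ _))
          (ih fun t' ht' => hS t' (Multiset.mem_cons_of_mem ht')) (pow_nonneg (h0 _ ht₀) _)
          ((h0 _ ht₀).trans (hS t (Multiset.mem_cons_self _ _)))
    calc π < t₀ ^ B := hB _ ht₀
      _ ≤ t₀ ^ Multiset.card T := pow_le_pow_of_le_one (h0 _ ht₀) (h1 _ ht₀) hcard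
      _ ≤ T.prod := hpow T hmin'

section

variable {C : Type} [NormedField C] [IsUltrametricDist C] {p : ℕ} [Fact p.Prime] {𝕜 : Type}
  [Field 𝕜] {ρ : Nr C p →+* 𝕜}

/-- Lifts of units. -/
theorem lift_unit (hρ : Function.Surjective ρ) (hker : ∀ r : Nr C p, ρ r = 0 ↔ ‖(r : C)‖ < 1)
    (u : (PowerSeries 𝕜)ˣ) : ∃ u' : (PowerSeries (Nr C p))ˣ,
      PowerSeries.map ρ (u' : PowerSeries (Nr C p)) = (u : PowerSeries 𝕜) := by
  choose sec hsec using hρ
  let F : PowerSeries (Nr C p) := PowerSeries.mk fun m => sec (PowerSeries.coeff m (u : PowerSeries 𝕜))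
  have hF : PowerSeries.map ρ F = (u : PowerSeries 𝕜) := by
    ext m
    rw [PowerSeries.coeff_map, PowerSeries.coeff_mk, hsec]
  have hu : IsUnit F := by
    rw [PowerSeries.isUnit_iff_constantCoeff]
    have h1 : PowerSeries.constantCoeff F = sec (PowerSeries.coeff 0 (u : PowerSeries 𝕜)) := by
      rw [← PowerSeries.coeff_zero_eq_constantCoeff_apply, PowerSeries.coeff_mk]
    rw [h1]
    set r := sec (PowerSeries.coeff 0 (u : PowerSeries 𝕜)) with hr
    have h2 : ρ r ≠ 0 := by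
      rw [hr, hsec, PowerSeries.coeff_zero_eq_constantCoeff_apply]
      exact (PowerSeries.isUnit_iff_constantCoeff.1 u.isUnit).ne_zero
    have h3 : ‖(r : C)‖ = 1 := by
      have h4 := Nr_le r.2
      have h5 : ¬ ‖(r : C)‖ < 1 := fun h => h2 ((hker r).2 h)
      exact le_antisymm h4 (not_lt.1 h5)
    have hr0 : (r : C) ≠ 0 := norm_pos_iff.1 (by rw [h3]; exact one_pos)
    refine IsUnit.of_mul_eq_one (⟨(r : C)⁻¹, Nr_inv r.2 h3⟩ : Nr C p) ?_
    apply Subtype.ext
    exact mul_inv_cancel₀ hr0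
  exact ⟨hu.unit, by rw [IsUnit.unit_spec, hF]⟩

variable {z : C} {e : PowerSeries (Nr C p) →+* C}

/-- Values of series with small coefficients. -/
theorem ev_small (hker : ∀ r : Nr C p, ρ r = 0 ↔ ‖(r : C)‖ < 1) (hp0 : 0 < ‖(p : C)‖)
    (hz : ‖z‖ < 1) (hC : ∀ r : Nr C p, e (PowerSeries.C r) = (r : C))
    (hX : e PowerSeries.X = z) (hn : ∀ F, ‖e F‖ ≤ 1) (F : PowerSeries (Nr C p))
    (hF : PowerSeries.map ρ F = 0) : ‖e F‖ ≤ ‖(p : C)‖ := by
  obtain ⟨m, hm⟩ := exists_pow_lt_of_lt_one hp0 hz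
  obtain ⟨G, hG⟩ := ev_expand (ψ := (Nr C p).subtype) hC hX hn F m
  rw [hG]
  refine nadd_le (nsum_le _ _ (norm_nonneg _) fun i _ => ?_) ?_
  · refine nmul_le' ?_ (npow_le hz.le _)
    have h1 : ρ (PowerSeries.coeff i F) = 0 := by
      rw [← PowerSeries.coeff_map, hF, map_zero]
    exact Nr_gap (PowerSeries.coeff i F).2 ((hker _).1 h1)
  · refine nmul_le' ?_ (hn G)
    rw [norm_pow]
    exact hm.le

/-- Approximate roots. -/
theorem root_aux {N : ℕ} (hρ : Function.Surjective ρ)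
    (hker : ∀ r : Nr C p, ρ r = 0 ↔ ‖(r : C)‖ < 1) (hp0 : 0 < ‖(p : C)‖) (hp1 : ‖(p : C)‖ < 1)
    (hz : ‖z‖ < 1) (hC : ∀ r : Nr C p, e (PowerSeries.C r) = (r : C))
    (hX : e PowerSeries.X = z) (hn : ∀ F, ‖e F‖ ≤ 1) {g : 𝕜[X][X]} {L : (PowerSeries 𝕜)ˣ}
    {ys : Multiset (PowerSeries 𝕜)ˣ} (hfac : PFac N g L ys) {B : ℕ}
    (hcard : Multiset.card ys ≤ B) {t : C} (ht : ‖t‖ ≤ 1)
    (hrel : ∀ g' : (Nr C p)[X][X], g'.map (mapRingHom ρ) = g →
      ‖E2 (Nr C p).subtype (z ^ N) t g'‖ ≤ ‖(p : C)‖) :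
    ∃ y ∈ ys, ∃ y' : (PowerSeries (Nr C p))ˣ,
      PowerSeries.map ρ (y' : PowerSeries (Nr C p)) = (y : PowerSeries 𝕜) ∧
      ‖t - e (y' : PowerSeries (Nr C p))‖ ^ B ≤ ‖(p : C)‖ := by
  classical
  choose lift hlift using lift_unit hρ hker
  obtain ⟨g', hg'⟩ := Polynomial.map_surjective (mapRingHom ρ)
    (Polynomial.map_surjective ρ hρ) g
  set Pr : (PowerSeries (Nr C p))[X] := Polynomial.C (lift L : PowerSeries (Nr C p)) *
    (ys.map fun y => X - Polynomial.C (lift y : PowerSeries (Nr C p))).prod with hPr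
  have hPrmap : Pr.map (PowerSeries.map ρ) = g.map (inn N) := by
    unfold PFac at hfac
    rw [hfac, hPr, Polynomial.map_mul, Polynomial.map_C, hlift, Polynomial.map_multiset_prod,
      Multiset.map_map]
    congr 2
    refine Multiset.map_congr rfl fun y _ => ?_
    simp only [Function.comp_apply, Polynomial.map_sub, Polynomial.map_X, Polynomial.map_C, hlift]
  set Q : (PowerSeries (Nr C p))[X] := g'.map (inn N) - Pr with hQ
  have hQmap : Q.map (PowerSeries.map ρ) = 0 := by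
    rw [hQ, Polynomial.map_sub, hPrmap, Polynomial.map_map, ← inn_map, ← Polynomial.map_map, hg',
      sub_self]
  have hQev : ‖Q.eval₂ e t‖ ≤ ‖(p : C)‖ := by
    rw [eval₂_eq_sum_range]
    refine nsum_le _ _ (norm_nonneg _) fun i _ => ?_
    refine nmul_le' ?_ (npow_le ht _)
    refine ev_small hker hp0 hz hC hX hn _ ?_
    rw [← Polynomial.coeff_map, hQmap, Polynomial.coeff_zero]
  have hgev : ‖(g'.map (inn N)).eval₂ e t‖ ≤ ‖(p : C)‖ := by
    have h1 : (g'.map (inn N)).eval₂ e t = E2 (Nr C p).subtype (z ^ N) t g' := by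
      rw [eval₂_map, E2_apply]
      congr 1
      ext r
      · simp [inn, hC]
      · simp [inn, hX]
    rw [h1]
    exact hrel g' hg'
  have hPrev : ‖Pr.eval₂ e t‖ ≤ ‖(p : C)‖ := by
    have h1 : Pr = g'.map (inn N) - Q := by rw [hQ]; ring
    rw [h1, eval₂_sub]
    exact nsub_le hgev hQev
  have hLn : ‖e (lift L : PowerSeries (Nr C p))‖ = 1 := by
    refine le_antisymm (hn _) ?_
    have h1 : e (lift L : PowerSeries (Nr C p)) *
        e ((lift L)⁻¹ : (PowerSeries (Nr C p))ˣ) = 1 := by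
      rw [← map_mul, Units.mul_inv, map_one]
    have h2 := congrArg norm h1
    rw [norm_mul, norm_one] at h2
    have h3 := hn ((lift L)⁻¹ : (PowerSeries (Nr C p))ˣ)
    have h4 := norm_nonneg (e (lift L : PowerSeries (Nr C p)))
    nlinarith
  have hprod : (ys.map fun y => ‖t - e (lift y : PowerSeries (Nr C p))‖).prod ≤ ‖(p : C)‖ := by
    have h1 : Pr.eval₂ e t = e (lift L : PowerSeries (Nr C p)) *
        (ys.map fun y => t - e (lift y : PowerSeries (Nr C p))).prod := by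
      rw [hPr, eval₂_mul, eval₂_C, Polynomial.eval₂_multiset_prod, Multiset.map_map]
      congr 2
      refine Multiset.map_congr rfl fun y _ => ?_
      simp only [Function.comp_apply, eval₂_sub, eval₂_X, eval₂_C]
    rw [h1, norm_mul, hLn, one_mul] at hPrev
    have h2 : ‖(ys.map fun y => t - e (lift y : PowerSeries (Nr C p))).prod‖ =
        (ys.map fun y => ‖t - e (lift y : PowerSeries (Nr C p))‖).prod := by
      have h3 := map_multiset_prod (normHom (α := C))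
        (ys.map fun y => t - e (lift y : PowerSeries (Nr C p)))
      rw [Multiset.map_map] at h3
      exact h3
    rwa [h2] at hPrev
  by_contra hcon
  push Not at hcon
  have h5 := prod_gt B ‖(p : C)‖ hp1 (ys.map fun y => ‖t - e (lift y : PowerSeries (Nr C p))‖)
    (by rwa [Multiset.card_map]) (by
      intro s hs
      obtain ⟨y, _, rfl⟩ := Multiset.mem_map.1 hs
      exact norm_nonneg _) (by
      intro s hs
      obtain ⟨y, _, rfl⟩ := Multiset.mem_map.1 hs
      exact nsub_le ht (hn _)) (by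
      intro s hs
      obtain ⟨y, hy, rfl⟩ := Multiset.mem_map.1 hs
      exact hcon y hy (lift y) (hlift y))
  linarith

end

theorem root : S_ROOT := by
  intro C _ _ _ _ p _ k 𝕜 _ _ n N W M d D B 𝓛 x hx a ha
  have hker : ∀ r : Nr C p, 𝓛.ρ r = 0 ↔ ‖(r : C)‖ < 1 := by
    intro r
    rw [← map_eq_zero_iff 𝓛.ι 𝓛.ι.injective, 𝓛.hι, 𝓛.hker]
  have hψ : ∀ r : Nr C p, ‖(Nr C p).subtype r‖ ≤ 1 := fun r => Nr_le r.2
  have hob : ∀ j, j ≠ a → ‖x j‖ = 1 := fun j hj => (hx.ob a j hj.symm).resolve_left ha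
  rcases lt_or_gt_of_ne ha with h | h
  · obtain ⟨z, hz⟩ := IsAlgClosed.exists_pow_nat_eq (x a) 𝓛.hN
    have hz1 : ‖z‖ < 1 := by
      by_contra hcon
      push Not at hcon
      have : 1 ≤ ‖z ^ N‖ := by rw [norm_pow]; exact one_le_pow₀ hcon
      rw [hz] at this
      linarith
    obtain ⟨e, h1, h2, h3⟩ := exists_evz (Nr C p).subtype hψ hz1
    refine ⟨false, z, e, hz1, h1, h2, h3, Or.inl ⟨h, rfl, hz⟩, fun j hj => ?_⟩
    refine root_aux 𝓛.hρs hker 𝓛.hp0 𝓛.hp1 hz1 h1 h2 h3 (𝓛.𝓡.fac a false j hj.symm)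
      (𝓛.h𝓡.card a false j hj.symm) (hob j hj).le fun g' hg' => ?_
    have h4 := hx.r1 a false j hj.symm (Or.inl ⟨rfl, h.le⟩) (hob j hj).le g' hg'
    have h5 : xs x a false = z ^ N := by
      rw [hz]
      rfl
    rwa [h5] at h4
  · obtain ⟨z, hz⟩ := IsAlgClosed.exists_pow_nat_eq (x a)⁻¹ 𝓛.hN
    have hz1 : ‖z‖ < 1 := by
      by_contra hcon
      push Not at hcon
      have : 1 ≤ ‖z ^ N‖ := by rw [norm_pow]; exact one_le_pow₀ hcon
      rw [hz, norm_inv] at this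
      have h5 := inv_lt_one_of_one_lt₀ h
      linarith
    obtain ⟨e, h1, h2, h3⟩ := exists_evz (Nr C p).subtype hψ hz1
    refine ⟨true, z, e, hz1, h1, h2, h3, Or.inr ⟨h, rfl, hz⟩, fun j hj => ?_⟩
    refine root_aux 𝓛.hρs hker 𝓛.hp0 𝓛.hp1 hz1 h1 h2 h3 (𝓛.𝓡.fac a true j hj.symm)
      (𝓛.h𝓡.card a true j hj.symm) (hob j hj).le fun g' hg' => ?_
    have h4 := hx.r1 a true j hj.symm (Or.inr ⟨rfl, h⟩) (hob j hj).le g' hg'
    have h5 : xs x a true = z ^ N := by
      rw [hz]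
      rfl
    rwa [h5] at h4

end Pool.Agent.Y151.ZX
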